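import Pool.Graph.R_seed8.TH212.PQDefs

set_option autoImplicit false

/-!
# Symplectic resolutions by the affine plane: the conductor and its zeros
-/

open MvPolynomial
open Pool.Agent.TH212

namespace Pool.Agent.H46.PN

section Gen

variable {R : Type} [CommRing R] [Algebra ℂ R]

theorem nat_mul_mem {I : Ideal R} {n : ℕ} {a : R} (h : ((n + 1 : ℕ) : R) * a ∈ I) : a ∈ I := by
  have h1 := I.mul_mem_left (algebraMap ℂ R (1 / (n + 1))) h
  have h2 : algebraMap ℂ R (1 / (n + 1)) * (((n + 1 : ℕ) : R) * a) = a := by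
    have h3 : ((n + 1 : ℕ) : R) = algebraMap ℂ R (n + 1) := by
      rw [map_add, map_natCast, map_one]
      push_cast
      ring
    have h4 : ((n : ℂ) + 1) ≠ 0 := Nat.cast_add_one_ne_zero n
    rw [h3, ← mul_assoc, ← map_mul, one_div_mul_cancel h4, map_one, one_mul]
  rwa [h2] at h1

theorem mem_of_pow (D : Derivation ℂ R R) (c P : Ideal R) [hP : P.IsPrime] (hcP : c ≤ P)
    (hc : ∀ x ∈ c, D x ∈ c) (x : R) (n : ℕ) :
    ∀ (k : ℕ) (s : R), s ∉ P → s * x ^ n * (D x) ^ k ∈ c → D x ∈ P := by
  induction n with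
  | zero =>
    intro k s hs h
    have h1 := hcP h
    rw [pow_zero, mul_one] at h1
    exact hP.mem_of_pow_mem k ((hP.mem_or_mem h1).resolve_left hs)
  | succ n ih =>
    intro k s hs h
    set y := D x with hy
    set a := s * x ^ (n + 1) * y ^ k with ha
    have hDa := hc a h
    have h1 : D a = D s * (x ^ (n + 1) * y ^ k) + ((n + 1 : ℕ) : R) * (s * x ^ n * y * y ^ k) +
        s * x ^ (n + 1) * D (y ^ k) := by
      have e1 : D (x ^ (n + 1)) = ((n + 1 : ℕ) : R) * (x ^ n * y) := by
        rw [Derivation.leibniz_pow]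
        simp only [smul_eq_mul, nsmul_eq_mul, Nat.add_sub_cancel]
        rfl
      rw [ha, Derivation.leibniz, Derivation.leibniz, e1]
      simp only [smul_eq_mul]
      ring
    have h2 : y * D (y ^ k) = (k : R) * y ^ k * D y := by
      rw [Derivation.leibniz_pow]
      simp only [smul_eq_mul, nsmul_eq_mul]
      rcases Nat.eq_zero_or_pos k with hk | hk
      · subst hk
        simp
      · obtain ⟨k', rfl⟩ : ∃ k', k = k' + 1 := ⟨k - 1, by omega⟩
        simp only [Nat.add_sub_cancel]
        ring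
    have h3 : ((n + 1 : ℕ) : R) * (s ^ 2 * x ^ n * y ^ (k + 2)) ∈ c := by
      have h4 : ((n + 1 : ℕ) : R) * (s ^ 2 * x ^ n * y ^ (k + 2)) =
          s * y * D a - D s * y * a - k * D y * s * a := by
        rw [h1, ha]
        linear_combination (-(s ^ 2 * x ^ (n + 1))) * h2
      rw [h4]
      exact c.sub_mem (c.sub_mem (c.mul_mem_left _ hDa) (c.mul_mem_left _ h)) (c.mul_mem_left _ h)
    have hs2 : s ^ 2 ∉ P := fun h' => hs (hP.mem_of_pow_mem 2 h')
    exact ih (k + 2) (s ^ 2) hs2 (nat_mul_mem h3)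

/-- minimal primes over a stable ideal are stable -/
theorem minimal_stable (D : Derivation ℂ R R) (c P : Ideal R) (hP : P ∈ c.minimalPrimes)
    (hc : ∀ x ∈ c, D x ∈ c) : ∀ x ∈ P, D x ∈ P := by
  intro x hx
  have hprime : P.IsPrime := hP.1.1
  have hcP : c ≤ P := hP.1.2
  by_cases hdis : Disjoint (c : Set R) (P.primeCompl ⊔ Submonoid.powers x : Submonoid R)
  · exfalso
    obtain ⟨q, hq, hcq, hqd⟩ := Ideal.exists_le_prime_disjoint _ _ hdis
    have hqP : q ≤ P := by
      intro z hz
      by_contra hzP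
      have h1 : z ∈ (P.primeCompl ⊔ Submonoid.powers x : Submonoid R) :=
        Submonoid.mem_sup_left hzP
      exact Set.disjoint_left.1 hqd hz h1
    have hPq := hP.2 ⟨hq, hcq⟩ hqP
    exact Set.disjoint_left.1 hqd (hPq hx)
      (Submonoid.mem_sup_right (Submonoid.mem_powers x))
  · rw [Set.not_disjoint_iff] at hdis
    obtain ⟨m, hm, hm'⟩ := hdis
    obtain ⟨s, hs, z, hz, rfl⟩ := Submonoid.mem_sup.1 hm'
    obtain ⟨n, rfl⟩ := hz
    refine mem_of_pow D c P hcP hc x n 0 s hs ?_
    rwa [pow_zero, mul_one]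

theorem br_antisymm (Q : PoissonBracket R) (a b : R) : Q.br a b = -Q.br b a := by
  have h := Q.br_self (a + b)
  simp only [map_add, LinearMap.add_apply, Q.br_self] at h
  linear_combination h

/-- the Hamiltonian derivation -/
noncomputable def der (Q : PoissonBracket R) (f : R) : Derivation ℂ R R :=
  Derivation.mk' (Q.br f) (by
    intro a b
    rw [Q.leibniz, smul_eq_mul, smul_eq_mul]
    ring)

theorem der_apply (Q : PoissonBracket R) (f r : R) : der Q f r = Q.br f r := rfl

variable {O : Type} [CommRing O] [Algebra ℂ O] {P : PoissonBracket O} {Q : PoissonBracket R}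
  {ρ : O →ₐ[ℂ] R}

/-- the conductor -/
def cond (ρ : O →ₐ[ℂ] R) : Ideal R where
  carrier := {r | ∀ t, ∃ a, ρ a = r * t}
  zero_mem' := fun t => ⟨0, by rw [map_zero, zero_mul]⟩
  add_mem' := by
    intro x y hx hy t
    obtain ⟨a, ha⟩ := hx t
    obtain ⟨b, hb⟩ := hy t
    exact ⟨a + b, by rw [map_add, ha, hb, add_mul]⟩
  smul_mem' := by
    intro z x hx t
    obtain ⟨a, ha⟩ := hx (z * t)
    exact ⟨a, by rw [ha, smul_eq_mul]; ring⟩

theorem cond_stable (hρ : ∀ a b, ρ (P.br a b) = Q.br (ρ a) (ρ b)) (f : O) :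
    ∀ x ∈ cond ρ, der Q (ρ f) x ∈ cond ρ := by
  intro x hx t
  rw [der_apply]
  obtain ⟨a, ha⟩ := hx t
  obtain ⟨b, hb⟩ := hx (Q.br (ρ f) t)
  refine ⟨P.br f a - b, ?_⟩
  rw [map_sub, hρ, ha, hb, Q.leibniz]
  ring

theorem cond_eq_top : cond ρ = ⊤ ↔ Function.Surjective ρ := by
  rw [Ideal.eq_top_iff_one]
  constructor
  · intro h r
    obtain ⟨a, ha⟩ := h r
    exact ⟨a, by rw [ha, one_mul]⟩
  · intro h t
    obtain ⟨a, ha⟩ := h (1 * t)
    exact ⟨a, ha⟩

/-- A curve which is tangent to all the Hamiltonian vector fields of a finite subalgebra: the function is a Casimir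
modulo the curve. -/
theorem curve [IsDomain R] (p : Ideal R) [hp : p.IsPrime] (h : R) (hph : p = Ideal.span {h})
    (hint : (ρ : O →+* R).IsIntegral) (hst : ∀ f : O, Q.br (ρ f) h ∈ p) (r : R) : Q.br h r ∈ p := by
  classical
  -- the derivation `{h, ·}` maps `p` and the subalgebra to `p`
  have hDp : ∀ z ∈ p, der Q h z ∈ p := by
    intro z hz
    rw [hph, Ideal.mem_span_singleton] at hz
    obtain ⟨b, rfl⟩ := hz
    rw [der_apply, Q.leibniz, Q.br_self, zero_mul, zero_add, hph]
    exact Ideal.mul_mem_right _ _ (Ideal.mem_span_singleton_self h)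
  have hDρ : ∀ f : O, der Q h (ρ f) ∈ p := by
    intro f
    rw [der_apply, br_antisymm]
    exact p.neg_mem (hst f)
  -- the chain rule
  have hchain : ∀ F : Polynomial O, der Q h (F.eval₂ (ρ : O →+* R) r) -
      F.derivative.eval₂ (ρ : O →+* R) r * der Q h r ∈ p := by
    intro F
    induction F using Polynomial.induction_on' with
    | add F G hF hG =>
      have e : der Q h ((F + G).eval₂ (ρ : O →+* R) r) -
          (F + G).derivative.eval₂ (ρ : O →+* R) r * der Q h r =
          (der Q h (F.eval₂ (ρ : O →+* R) r) - F.derivative.eval₂ (ρ : O →+* R) r * der Q h r) +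
          (der Q h (G.eval₂ (ρ : O →+* R) r) - G.derivative.eval₂ (ρ : O →+* R) r * der Q h r) := by
        rw [Polynomial.derivative_add, Polynomial.eval₂_add, Polynomial.eval₂_add, map_add]
        ring
      rw [e]
      exact p.add_mem hF hG
    | monomial n a =>
      have e : der Q h ((Polynomial.monomial n a).eval₂ (ρ : O →+* R) r) -
          (Polynomial.monomial n a).derivative.eval₂ (ρ : O →+* R) r * der Q h r =
          r ^ n * der Q h (ρ a) := by
        rw [Polynomial.derivative_monomial, Polynomial.eval₂_monomial, Polynomial.eval₂_monomial,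
          Derivation.leibniz, Derivation.leibniz_pow, map_mul, map_natCast]
        simp only [smul_eq_mul, nsmul_eq_mul, RingHom.coe_coe]
        ring
      rw [e]
      exact p.mul_mem_left _ (hDρ a)
  -- a polynomial of the least degree
  have hex : ∃ n : ℕ, ∃ F : Polynomial O, F.natDegree = n ∧ ρ (F.coeff n) ∉ p ∧
      F.eval₂ (ρ : O →+* R) r ∈ p := by
    obtain ⟨F, hF, hF0⟩ := hint r
    refine ⟨F.natDegree, F, rfl, ?_, by rw [hF0]; exact p.zero_mem⟩
    have : F.coeff F.natDegree = 1 := hF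
    rw [this, map_one]
    exact fun h => hp.ne_top ((Ideal.eq_top_iff_one p).2 h)
  obtain ⟨F, hFn, hFl, hFp⟩ := Nat.find_spec hex
  set n := Nat.find hex with hn
  have hmin : ∀ m < n, ¬ ∃ F : Polynomial O, F.natDegree = m ∧ ρ (F.coeff m) ∉ p ∧
      F.eval₂ (ρ : O →+* R) r ∈ p := fun m hm => Nat.find_min hex hm
  have hn0 : n ≠ 0 := by
    intro h0
    rw [h0] at hFn hFl
    rw [Polynomial.eq_C_of_natDegree_eq_zero hFn, Polynomial.eval₂_C] at hFp
    exact hFl hFp
  obtain ⟨n', hn'⟩ : ∃ n', n = n' + 1 := ⟨n - 1, by omega⟩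
  have hcoef : F.derivative.coeff n' = F.coeff n * ((n' : O) + 1) := by
    rw [Polynomial.coeff_derivative, ← hn']
  have hcoefp : ρ (F.derivative.coeff n') ∉ p := by
    rw [hcoef]
    intro hmem
    apply hFl
    apply nat_mul_mem (n := n')
    rw [map_mul, map_add, map_natCast, map_one] at hmem
    push_cast
    rwa [mul_comm]
  have hdeg : F.derivative.natDegree = n' := by
    apply le_antisymm
    · have := Polynomial.natDegree_derivative_le F
      omega
    · apply Polynomial.le_natDegree_of_ne_zero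
      intro h0
      rw [h0, map_zero] at hcoefp
      exact hcoefp p.zero_mem
  have hder : F.derivative.eval₂ (ρ : O →+* R) r ∉ p := fun hmem =>
    hmin n' (by omega) ⟨F.derivative, hdeg, hcoefp, hmem⟩
  have h1 := p.sub_mem (hDp _ hFp) (hchain F)
  rw [sub_sub_cancel] at h1
  exact (hp.mem_or_mem h1).resolve_left hder

end Gen

/-- an ideal of polynomials which is stable under the partial derivatives is trivial -/
theorem simple {σ : Type} (I : Ideal (MvPolynomial σ ℂ)) (hI : ∀ i, ∀ g ∈ I, pderiv i g ∈ I)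
    (h0 : I ≠ ⊥) : I = ⊤ := by
  classical
  obtain ⟨g₀, hg₀, hg₀0⟩ := Submodule.exists_mem_ne_zero_of_ne_bot h0
  have hex : ∃ n : ℕ, ∃ g ∈ I, g ≠ 0 ∧ g.totalDegree = n := ⟨_, g₀, hg₀, hg₀0, rfl⟩
  obtain ⟨g, hg, hg0, hgn⟩ := Nat.find_spec hex
  have hmin : ∀ m < Nat.find hex, ¬ ∃ g ∈ I, g ≠ 0 ∧ g.totalDegree = m :=
    fun m hm => Nat.find_min hex hm
  have hder : ∀ i, pderiv i g = 0 := by
    intro i
    by_contra hne
    have hlt : (pderiv i g).totalDegree < g.totalDegree := by
      obtain ⟨m, hm⟩ := MvPolynomial.ne_zero_iff.1 hne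
      have hpos : 0 < g.totalDegree := by
        rw [coeff_pderiv] at hm
        have h1 : coeff (m + Finsupp.single i 1) g ≠ 0 := left_ne_zero_of_mul hm
        have h2 := le_totalDegree (mem_support_iff.2 h1)
        rw [Finsupp.sum_add_index' (fun _ => rfl) (fun _ _ _ => rfl),
          Finsupp.sum_single_index rfl] at h2
        omega
      rw [totalDegree, Finset.sup_lt_iff (by simpa using hpos)]
      intro m' hm'
      rw [mem_support_iff, coeff_pderiv] at hm'
      have h1 : coeff (m' + Finsupp.single i 1) g ≠ 0 := left_ne_zero_of_mul hm'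
      have h2 := le_totalDegree (mem_support_iff.2 h1)
      rw [Finsupp.sum_add_index' (fun _ => rfl) (fun _ _ _ => rfl),
        Finsupp.sum_single_index rfl] at h2
      omega
    exact hmin _ (by rw [← hgn]; exact hlt) ⟨pderiv i g, hI i g hg, hne, rfl⟩
  have hgC : g = C (coeff 0 g) := by
    ext m
    rw [coeff_C]
    split_ifs with hm
    · rw [hm]
    · obtain ⟨i, hi⟩ := Finsupp.ne_iff.1 (Ne.symm hm)
      rw [Finsupp.zero_apply] at hi
      have h1 := congrArg (coeff (m - Finsupp.single i 1)) (hder i)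
      rw [coeff_pderiv, coeff_zero] at h1
      have h2 : m - Finsupp.single i 1 + Finsupp.single i 1 = m := by
        apply tsub_add_cancel_of_le
        rw [Finsupp.single_le_iff]
        exact Nat.one_le_iff_ne_zero.2 hi
      rw [h2] at h1
      exact (mul_eq_zero.1 h1).resolve_right (Nat.cast_add_one_ne_zero _)
  have hc0 : coeff 0 g ≠ 0 := by
    intro h
    rw [h, C_0] at hgC
    exact hg0 hgC
  rw [Ideal.eq_top_iff_one]
  have h1 := I.mul_mem_left (C (coeff 0 g)⁻¹) hg
  rw [hgC, coeff_C] at h1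
  simp only [if_true] at h1
  rwa [← C_mul, inv_mul_cancel₀ hc0, C_1] at h1

end Pool.Agent.H46.PN
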