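import Pool.Agent.H46.PN.Tfae
import Pool.Graph.R_seed8.TH212.CuspVar
import Pool.Graph.R_pool_sql_team_seeded_1acbe0a2.Y178.HP.DM

set_option autoImplicit false

/-!
# Affine Poisson surfaces with the symplectic resolution `𝔸²` and zeroth Poisson homology of any dimension
-/

open MvPolynomial
open Pool.Agent.TH212

namespace Pool.Agent.H46.PN

open Pool.Agent.Y178.HP in
/-- the zeroth Poisson-de Rham homology and the zeroth Poisson homology have the same dimension -/
theorem rank_HPDR0 {A B : Type} [CommRing A] [Algebra ℂ A] [CommRing B] [Algebra ℂ B] [Algebra.FormallySmooth ℂ B]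
    (P : PoissonBracket A) (i : B →ₐ[ℂ] A) (hi : Function.Surjective i) :
    Module.rank ℂ (B ⧸ idealJO P i) = Module.rank ℂ (A ⧸ P.brackets) := by
  have h : (idealJO P i) ≤ (P.brackets).comap i.toLinearMap := fun x hx => map_of_mem_JO P i hx
  have e : Function.Bijective ((idealJO P i).mapQ P.brackets i.toLinearMap h) := by
    constructor
    · rw [← LinearMap.ker_eq_bot, LinearMap.ker_eq_bot']
      intro x hx
      obtain ⟨f, rfl⟩ := Submodule.Quotient.mk_surjective _ x
      have hx' : (Submodule.Quotient.mk (i f) : A ⧸ P.brackets) = 0 := hx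
      rw [Submodule.Quotient.mk_eq_zero] at hx' ⊢
      exact mem_of_map_mem P i hi hx' f rfl
    · intro y
      obtain ⟨a, rfl⟩ := Submodule.Quotient.mk_surjective _ y
      obtain ⟨f, rfl⟩ := hi a
      exact ⟨Submodule.Quotient.mk f, rfl⟩
  exact (LinearEquiv.ofBijective _ e).rank_eq

/-- the point `(i, 0)` -/
noncomputable def pt (i : ℕ) : Fin 2 → ℂ := ![(i : ℂ), 0]

/-- The polynomials whose partial derivatives vanish at `(0, 0), (1, 0), ..., (N - 1, 0)`. -/
noncomputable def AN (N : ℕ) : Subalgebra ℂ R2 where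
  carrier := {f | ∀ i < N, ∀ j : Fin 2, eval (pt i) (pderiv j f) = 0}
  mul_mem' := by
    intro a b ha hb i hi j
    rw [Derivation.leibniz, map_add, smul_eq_mul, smul_eq_mul, map_mul, map_mul, ha i hi j, hb i hi j]
    ring
  add_mem' := by
    intro a b ha hb i hi j
    rw [map_add, map_add, ha i hi j, hb i hi j, add_zero]
  algebraMap_mem' := by
    intro c i _ j
    rw [MvPolynomial.algebraMap_eq, MvPolynomial.pderiv_C, map_zero]

variable {N : ℕ}

theorem mem_AN {f : R2} : f ∈ AN N ↔ ∀ i < N, ∀ j : Fin 2, eval (pt i) (pderiv j f) = 0 := Iff.rfl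

theorem pb_mem_AN {f g : R2} (hf : f ∈ AN N) (hg : g ∈ AN N) : pb f g ∈ AN N := by
  intro i hi j
  rw [pb_apply, map_sub, Derivation.leibniz, Derivation.leibniz]
  simp only [smul_eq_mul, map_add, map_sub, map_mul]
  rw [hf i hi 0, hf i hi 1, hg i hi 0, hg i hi 1]
  ring

/-- The restriction of the Poisson bracket of `ℂ[x, y]`. -/
noncomputable def PA (N : ℕ) : PoissonBracket (AN N) where
  br := LinearMap.mk₂ ℂ (fun f g => (⟨pb f g, pb_mem_AN f.2 g.2⟩ : AN N))
    (by
      intro a b c
      apply Subtype.ext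
      simp)
    (by
      intro c a b
      apply Subtype.ext
      simp)
    (by
      intro a b c
      apply Subtype.ext
      simp)
    (by
      intro c a b
      apply Subtype.ext
      simp)
  br_self a := by
    apply Subtype.ext
    exact PR.br_self _
  leibniz a b c := by
    apply Subtype.ext
    exact PR.leibniz _ _ _
  jacobi a b c := by
    apply Subtype.ext
    exact PR.jacobi _ _ _

theorem PA_val (f g : AN N) : (((PA N).br f g : AN N) : R2) = pb f g := rfl

/-! ### polynomials in `x` -/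

/-- polynomials in `x` -/
noncomputable def io : Polynomial ℂ →ₐ[ℂ] R2 := Polynomial.aeval (X 0)

theorem pderiv0_io (r : Polynomial ℂ) : pderiv 0 (io r) = io r.derivative := by
  unfold io
  rw [Derivation.map_aeval, pderiv_X_self, smul_eq_mul, mul_one]

theorem pderiv1_io (r : Polynomial ℂ) : pderiv 1 (io r) = 0 := by
  unfold io
  rw [Derivation.map_aeval, pderiv_X_of_ne (show (0 : Fin 2) ≠ 1 by decide), smul_zero]

theorem eval_io (i : ℕ) (r : Polynomial ℂ) : eval (pt i) (io r) = r.eval (i : ℂ) := by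
  unfold io
  rw [← Polynomial.coe_evalRingHom]
  have h : ((eval (pt i)).comp (Polynomial.aeval (X 0 : R2) : Polynomial ℂ →ₐ[ℂ] R2).toRingHom) =
      Polynomial.evalRingHom (i : ℂ) := by
    apply Polynomial.ringHom_ext
    · intro c
      simp
    · simp [pt]
  exact RingHom.congr_fun h r

theorem eval_X1 (i : ℕ) : eval (pt i) (X 1 : R2) = 0 := by
  simp [pt]

theorem antideriv (r : Polynomial ℂ) : ∃ s : Polynomial ℂ, s.derivative = r := by
  induction r using Polynomial.induction_on' with
  | add p q hp hq =>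
    obtain ⟨a, rfl⟩ := hp
    obtain ⟨b, rfl⟩ := hq
    exact ⟨a + b, Polynomial.derivative_add⟩
  | monomial n z =>
    refine ⟨Polynomial.monomial (n + 1) (z / (n + 1)), ?_⟩
    rw [Polynomial.derivative_monomial]
    have h0 : ((n : ℂ) + 1) ≠ 0 := Nat.cast_add_one_ne_zero _
    simp only [Nat.add_sub_cancel, Nat.cast_add, Nat.cast_one]
    rw [div_mul_cancel₀ _ h0]

/-- the polynomial with the roots `0, ..., N - 1` -/
noncomputable def qq (N : ℕ) : Polynomial ℂ := ∏ i ∈ Finset.range N, (Polynomial.X - Polynomial.C (i : ℂ))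

theorem qq_coprime : IsCoprime (qq N) (qq N).derivative := by
  have h : (qq N).Separable := by
    unfold qq
    rw [Polynomial.separable_prod_X_sub_C_iff']
    intro x _ y _ h
    exact_mod_cast h
  exact h

theorem qq_eval {i : ℕ} (hi : i < N) : (qq N).eval (i : ℂ) = 0 := by
  unfold qq
  rw [Polynomial.eval_prod]
  exact Finset.prod_eq_zero (Finset.mem_range.2 hi) (by simp)

theorem qq_dvd {r : Polynomial ℂ} (hr : ∀ i < N, r.eval (i : ℂ) = 0) : qq N ∣ r := by
  unfold qq
  refine Finset.prod_dvd_of_coprime ?_ fun i hi => ?_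
  · intro i _ j _ hij
    apply Polynomial.isCoprime_X_sub_C_of_isUnit_sub
    rw [isUnit_iff_ne_zero, sub_ne_zero]
    exact_mod_cast hij
  · exact Polynomial.dvd_iff_isRoot.2 (hr i (Finset.mem_range.1 hi))

theorem qq_der_ne {i : ℕ} (hi : i < N) : (qq N).derivative.eval (i : ℂ) ≠ 0 := by
  obtain ⟨u, v, h⟩ := qq_coprime (N := N)
  intro h0
  have h1 := congrArg (Polynomial.eval (i : ℂ)) h
  rw [Polynomial.eval_add, Polynomial.eval_mul, Polynomial.eval_mul, qq_eval hi, h0] at h1
  simp at h1

theorem io_mem {r : Polynomial ℂ} (hr : ∀ i < N, r.derivative.eval (i : ℂ) = 0) : io r ∈ AN N := by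
  intro i hi j
  fin_cases j
  · show eval (pt i) (pderiv 0 (io r)) = 0
    rw [pderiv0_io, eval_io, hr i hi]
  · show eval (pt i) (pderiv 1 (io r)) = 0
    rw [pderiv1_io, map_zero]

theorem y2_mem (g : R2) : X 1 * (X 1 * g) ∈ AN N := by
  intro i _ j
  rw [Derivation.leibniz, Derivation.leibniz]
  simp only [smul_eq_mul, map_add, map_mul, eval_X1]
  ring

theorem y_mem {r : Polynomial ℂ} (hr : ∀ i < N, r.eval (i : ℂ) = 0) : X 1 * io r ∈ AN N := by
  intro i hi j
  rw [Derivation.leibniz]
  simp only [smul_eq_mul, map_add, map_mul, eval_X1, eval_io, hr i hi]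
  ring

/-! ### brackets -/

/-- `h` is a sum of brackets -/
def Br (N : ℕ) (h : R2) : Prop := ∃ z ∈ (PA N).brackets, (z : R2) = h

theorem Br.add {f g : R2} (hf : Br N f) (hg : Br N g) : Br N (f + g) := by
  obtain ⟨a, ha, rfl⟩ := hf
  obtain ⟨b, hb, rfl⟩ := hg
  exact ⟨a + b, Submodule.add_mem _ ha hb, rfl⟩

theorem Br.neg {f : R2} (hf : Br N f) : Br N (-f) := by
  obtain ⟨a, ha, rfl⟩ := hf
  exact ⟨-a, Submodule.neg_mem _ ha, rfl⟩

theorem Br.pb {f g : R2} (hf : f ∈ AN N) (hg : g ∈ AN N) : Br N (TH212.pb f g) :=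
  ⟨(PA N).br ⟨f, hf⟩ ⟨g, hg⟩, Submodule.subset_span ⟨_, _, rfl⟩, rfl⟩

/-- `{F(x), g} = - F' g_y` -/
theorem Br.left {r : Polynomial ℂ} {g : R2} (hg : g ∈ AN N) : Br N (io (qq N * r) * pderiv 1 g) := by
  obtain ⟨F, hF⟩ := antideriv (qq N * r)
  have hFm : io F ∈ AN N := io_mem fun i hi => by
    rw [hF, Polynomial.eval_mul, qq_eval hi, zero_mul]
  have h := (Br.pb hFm hg).neg
  rw [pb_apply, pderiv1_io, pderiv0_io, hF] at h
  have e : -(0 * pderiv 0 g - io (qq N * r) * pderiv 1 g) = io (qq N * r) * pderiv 1 g := by ring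
  rwa [e] at h

/-- `{y² / 2, g} = y g_x` -/
theorem Br.right {g : R2} (hg : g ∈ AN N) : Br N (X 1 * pderiv 0 g) := by
  have hm : X 1 * (X 1 * C (1 / 2 : ℂ)) ∈ AN N := y2_mem _
  have h := Br.pb hm hg
  rw [pb_apply] at h
  have h1 : pderiv 1 (X 1 * (X 1 * C (1 / 2 : ℂ)) : R2) = X 1 := by
    rw [Derivation.leibniz, Derivation.leibniz, pderiv_X_self, pderiv_C]
    simp only [smul_eq_mul, mul_zero, zero_add, mul_one]
    have h2 : (C (1 / 2 : ℂ) + C (1 / 2 : ℂ) : R2) = 1 := by
      rw [← C_add]
      norm_num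
    linear_combination (X 1 : R2) * h2
  have h0 : pderiv 0 (X 1 * (X 1 * C (1 / 2 : ℂ)) : R2) = 0 := by
    rw [Derivation.leibniz, Derivation.leibniz, pderiv_X_of_ne (show (1 : Fin 2) ≠ 0 by decide), pderiv_C]
    simp
  rw [h1, h0, zero_mul, sub_zero] at h
  exact h

theorem br_a (a : Polynomial ℂ) : Br N (io (qq N * (qq N * a))) := by
  have hg : X 1 * io (qq N * a) ∈ AN N := y_mem fun i hi => by
    rw [Polynomial.eval_mul, qq_eval hi, zero_mul]
  have h := Br.left (r := 1) hg
  rw [Derivation.leibniz, pderiv1_io, pderiv_X_self] at h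
  simp only [smul_eq_mul, mul_zero, zero_add, mul_one] at h
  rwa [← map_mul] at h

theorem br_b (b : Polynomial ℂ) : Br N (X 1 * io (qq N * b)) := by
  have hg : X 1 * (X 1 * (C (1 / 2 : ℂ) * io b)) ∈ AN N := y2_mem _
  have h := Br.left (r := 1) hg
  have h1 : pderiv 1 (X 1 * (X 1 * (C (1 / 2 : ℂ) * io b)) : R2) = X 1 * io b := by
    rw [Derivation.leibniz, Derivation.leibniz, Derivation.leibniz, pderiv_X_self, pderiv_C, pderiv1_io]
    simp only [smul_eq_mul, mul_zero, zero_add, mul_one, add_zero]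
    have h2 : (C (1 / 2 : ℂ) + C (1 / 2 : ℂ) : R2) = 1 := by
      rw [← C_add]
      norm_num
    linear_combination (X 1 * io b : R2) * h2
  rw [h1, mul_one] at h
  have e : io (qq N) * (X 1 * io b) = X 1 * io (qq N * b) := by
    rw [map_mul]
    ring
  rwa [e] at h

theorem br_c1 (j : ℕ) (k : Polynomial ℂ) : Br N (X 1 ^ (j + 3) * io k) := by
  obtain ⟨K, hK⟩ := antideriv k
  have hg : X 1 * (X 1 * (X 1 ^ j * io K)) ∈ AN N := y2_mem _
  have h := Br.right hg
  have h1 : pderiv 0 (X 1 * (X 1 * (X 1 ^ j * io K)) : R2) = X 1 * (X 1 * (X 1 ^ j * io k)) := by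
    rw [Derivation.leibniz, Derivation.leibniz, Derivation.leibniz, Derivation.leibniz_pow,
      pderiv_X_of_ne (show (1 : Fin 2) ≠ 0 by decide), pderiv0_io, hK]
    simp
  rw [h1] at h
  have e : X 1 * (X 1 * (X 1 * (X 1 ^ j * io k))) = (X 1 ^ (j + 3) * io k : R2) := by ring
  rwa [e] at h

theorem br_c0 (k : Polynomial ℂ) : Br N (X 1 ^ 2 * io k) := by
  have h1 : ∀ r : Polynomial ℂ, Br N (X 1 ^ 2 * io (qq N * r)) := by
    intro r
    have hg : X 1 * (X 1 * (X 1 * (C (1 / 3 : ℂ) * io r))) ∈ AN N := y2_mem _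
    have h := Br.left (r := 1) hg
    have h1 : pderiv 1 (X 1 * (X 1 * (X 1 * (C (1 / 3 : ℂ) * io r))) : R2) = X 1 ^ 2 * io r := by
      rw [Derivation.leibniz, Derivation.leibniz, Derivation.leibniz, Derivation.leibniz, pderiv_X_self,
        pderiv_C, pderiv1_io]
      simp only [smul_eq_mul, mul_zero, zero_add, mul_one, add_zero]
      have h2 : (C (1 / 3 : ℂ) + C (1 / 3 : ℂ) + C (1 / 3 : ℂ) : R2) = 1 := by
        rw [← C_add, ← C_add]
        norm_num
      linear_combination (X 1 ^ 2 * io r : R2) * h2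
    rw [h1, mul_one] at h
    have e : io (qq N) * (X 1 ^ 2 * io r) = X 1 ^ 2 * io (qq N * r) := by
      rw [map_mul]
      ring
    rwa [e] at h
  have h2 : ∀ r : Polynomial ℂ, Br N (X 1 ^ 2 * io (qq N * r).derivative) := by
    intro r
    have hg : X 1 * io (qq N * r) ∈ AN N := y_mem fun i hi => by
      rw [Polynomial.eval_mul, qq_eval hi, zero_mul]
    have h := Br.right hg
    rw [Derivation.leibniz, pderiv0_io, pderiv_X_of_ne (show (1 : Fin 2) ≠ 0 by decide)] at h
    simp only [smul_eq_mul, mul_zero, add_zero] at h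
    have e : X 1 * (X 1 * io (qq N * r).derivative) = (X 1 ^ 2 * io (qq N * r).derivative : R2) := by ring
    rwa [e] at h
  obtain ⟨u, v, huv⟩ := qq_coprime (N := N)
  have h3 := ((h1 (k * u)).add (h2 (k * v))).add (h1 (k * v).derivative).neg
  have e : X 1 ^ 2 * io (qq N * (k * u)) + X 1 ^ 2 * io (qq N * (k * v)).derivative +
      -(X 1 ^ 2 * io (qq N * (k * v).derivative)) = (X 1 ^ 2 * io k : R2) := by
    have e1 : k = qq N * (k * u) + (qq N * (k * v)).derivative - qq N * (k * v).derivative := by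
      rw [Polynomial.derivative_mul]
      linear_combination (-k) * huv
    conv_rhs => rw [e1]
    rw [map_sub, map_add]
    ring
  rwa [e] at h3

/-! ### polynomials in `x` and `y` -/

/-- polynomials in `y` with coefficients in `ℂ[x]` -/
noncomputable def Psi : Polynomial (Polynomial ℂ) →+* R2 :=
  Polynomial.eval₂RingHom (io : Polynomial ℂ →+* R2) (X 1)

theorem Psi_surj : Function.Surjective Psi := by
  intro h
  induction h using MvPolynomial.induction_on with
  | C a => exact ⟨Polynomial.C (Polynomial.C a), by simp [Psi, io]⟩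
  | add p q hp hq =>
    obtain ⟨a, rfl⟩ := hp
    obtain ⟨b, rfl⟩ := hq
    exact ⟨a + b, map_add _ _ _⟩
  | mul_X p i hp =>
    obtain ⟨a, rfl⟩ := hp
    fin_cases i
    · refine ⟨a * Polynomial.C Polynomial.X, ?_⟩
      rw [map_mul]
      congr 1
      simp [Psi, io]
    · refine ⟨a * Polynomial.X, ?_⟩
      rw [map_mul]
      congr 1
      simp [Psi]

theorem Psi_split (H : Polynomial (Polynomial ℂ)) : Psi H =
    io (H.coeff 0) + X 1 * io (H.coeff 1) + X 1 ^ 2 * Psi H.divX.divX := by
  have h1 := Polynomial.divX_mul_X_add H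
  have h2 := Polynomial.divX_mul_X_add H.divX
  have h3 : Psi H = Psi H.divX * X 1 + io (H.coeff 0) := by
    conv_lhs => rw [← h1]
    simp [Psi]
  have h4 : Psi H.divX = Psi H.divX.divX * X 1 + io (H.coeff 1) := by
    conv_lhs => rw [← h2]
    simp [Psi, Polynomial.coeff_divX]
  rw [h3, h4]
  ring

theorem br_Psi (K : Polynomial (Polynomial ℂ)) : Br N (X 1 ^ 2 * Psi K) := by
  induction K using Polynomial.induction_on' with
  | add p q hp hq =>
    rw [map_add, mul_add]
    exact hp.add hq
  | monomial n k =>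
    have e : Psi (Polynomial.monomial n k) = X 1 ^ n * io k := by
      simp [Psi, mul_comm]
    rw [e]
    rcases n with _ | n
    · rw [pow_zero, one_mul]
      exact br_c0 k
    · have e2 : X 1 ^ 2 * (X 1 ^ (n + 1) * io k) = (X 1 ^ (n + 3) * io k : R2) := by ring
      rw [e2]
      exact br_c1 n k

/-- The sums of brackets are the functions which vanish at the points. -/
theorem br_of_vanish {h : R2} (hA : h ∈ AN N) (h0 : ∀ i < N, eval (pt i) h = 0) : Br N h := by
  obtain ⟨H, rfl⟩ := Psi_surj h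
  set a := H.coeff 0 with ha
  set b := H.coeff 1 with hb
  have hs := Psi_split H
  rw [← ha, ← hb] at hs
  have ha0 : ∀ i < N, a.eval (i : ℂ) = 0 := by
    intro i hi
    have h1 := h0 i hi
    have hp : pt i 1 = 0 := by simp [pt]
    rw [hs] at h1
    simpa [eval_io, hp] using h1
  have ha1 : ∀ i < N, a.derivative.eval (i : ℂ) = 0 := by
    intro i hi
    have h1 := hA i hi 0
    have hp : pt i 1 = 0 := by simp [pt]
    rw [hs] at h1
    simp only [map_add, Derivation.leibniz, Derivation.leibniz_pow, pderiv0_io,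
      pderiv_X_of_ne (show (1 : Fin 2) ≠ 0 by decide)] at h1
    simpa [eval_io, hp] using h1
  have hb0 : ∀ i < N, b.eval (i : ℂ) = 0 := by
    intro i hi
    have h1 := hA i hi 1
    have hp : pt i 1 = 0 := by simp [pt]
    rw [hs] at h1
    simp only [map_add, Derivation.leibniz, Derivation.leibniz_pow, pderiv1_io, pderiv_X_self] at h1
    simpa [eval_io, hp] using h1
  obtain ⟨a', ha'⟩ := qq_dvd ha0
  have ha'0 : ∀ i < N, a'.eval (i : ℂ) = 0 := by
    intro i hi
    have h1 := ha1 i hi
    rw [ha', Polynomial.derivative_mul, Polynomial.eval_add, Polynomial.eval_mul, Polynomial.eval_mul,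
      qq_eval hi, zero_mul, add_zero] at h1
    exact (mul_eq_zero.1 h1).resolve_left (qq_der_ne hi)
  obtain ⟨a'', ha''⟩ := qq_dvd ha'0
  obtain ⟨b', hb'⟩ := qq_dvd hb0
  rw [hs, ha', ha'', hb']
  exact ((br_a a'').add (br_b b')).add (br_Psi _)

/-! ### the zeroth Poisson homology -/

/-- the values at the points -/
noncomputable def ev (N : ℕ) : AN N →ₗ[ℂ] (Fin N → ℂ) where
  toFun f := fun i => eval (pt i) (f : R2)
  map_add' f g := by
    funext i
    rw [Subalgebra.coe_add, map_add]
    rfl
  map_smul' c f := by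
    funext i
    rw [Subalgebra.coe_smul, smul_eq_C_mul, map_mul, eval_C]
    rfl

theorem ker_ev : LinearMap.ker (ev N) = (PA N).brackets := by
  apply le_antisymm
  · intro f hf
    rw [LinearMap.mem_ker] at hf
    obtain ⟨z, hz, hz'⟩ := br_of_vanish f.2 (fun i hi => congrFun hf ⟨i, hi⟩)
    rwa [Subtype.ext hz'] at hz
  · unfold PoissonBracket.brackets
    rw [Submodule.span_le]
    rintro _ ⟨a, b, rfl⟩
    rw [SetLike.mem_coe, LinearMap.mem_ker]
    funext i
    change eval (pt i) ((((PA N).br a b : AN N) : R2)) = 0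
    rw [PA_val, pb_apply, map_sub, map_mul, map_mul, a.2 i i.2 0, a.2 i i.2 1]
    ring

theorem ev_surj : Function.Surjective (ev N) := by
  classical
  intro v
  -- Lagrange polynomials
  have hL : ∀ i : Fin N, ∃ r : Polynomial ℂ, (∀ j < N, r.derivative.eval (j : ℂ) = 0) ∧
      ∀ j < N, r.eval (j : ℂ) = if j = i then 1 else 0 := by
    intro i
    obtain ⟨l, hl⟩ : ∃ l : Polynomial ℂ, ∀ j < N, l.eval (j : ℂ) = if j = i then 1 else 0 := by
      refine ⟨Lagrange.basis (Finset.range N) (fun j : ℕ => (j : ℂ)) i, fun j hj => ?_⟩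
      have hinj : Set.InjOn (fun j : ℕ => (j : ℂ)) (Finset.range N) := fun a _ b _ h => by
        have h' : (a : ℂ) = b := h
        exact_mod_cast h'
      split_ifs with hji
      · subst hji
        exact Lagrange.eval_basis_self hinj (Finset.mem_range.2 hj)
      · exact Lagrange.eval_basis_of_ne (Ne.symm hji) (Finset.mem_range.2 hj)
    refine ⟨3 * l ^ 2 - 2 * l ^ 3, fun j hj => ?_, fun j hj => ?_⟩
    · have e : (3 * l ^ 2 - 2 * l ^ 3 : Polynomial ℂ).derivative = 6 * l * (1 - l) * l.derivative := by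
        have h2 : (Polynomial.C (2 : ℂ)) = 2 := map_ofNat _ 2
        have h3 : (Polynomial.C (3 : ℂ)) = 3 := map_ofNat _ 3
        simp only [Polynomial.derivative_sub, Polynomial.derivative_mul, Polynomial.derivative_pow,
          Polynomial.derivative_ofNat, Nat.cast_ofNat, h2, h3]
        ring
      rw [e, Polynomial.eval_mul, Polynomial.eval_mul, Polynomial.eval_mul, Polynomial.eval_sub,
        Polynomial.eval_one, hl j hj]
      split_ifs <;> simp
    · rw [Polynomial.eval_sub, Polynomial.eval_mul, Polynomial.eval_mul, Polynomial.eval_pow,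
        Polynomial.eval_pow, hl j hj]
      split_ifs <;> norm_num
  choose r hr hr' using hL
  refine ⟨∑ i : Fin N, v i • (⟨io (r i), io_mem (hr i)⟩ : AN N), ?_⟩
  rw [map_sum]
  funext j
  rw [Finset.sum_apply, Finset.sum_eq_single j]
  · rw [map_smul]
    change v j • eval (pt j) (io (r j)) = v j
    rw [eval_io, hr' j j j.2, if_pos rfl, smul_eq_mul, mul_one]
  · intro i _ hij
    rw [map_smul]
    change v i • eval (pt j) (io (r i)) = 0
    rw [eval_io, hr' i j j.2, if_neg (fun h => hij (Fin.ext h.symm)), smul_zero]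
  · intro h
    exact absurd (Finset.mem_univ j) h

theorem rank_HP0 : Module.rank ℂ (PA N).HP0 = N := by
  have e : (AN N ⧸ (PA N).brackets) ≃ₗ[ℂ] (Fin N → ℂ) :=
    (Submodule.quotEquivOfEq _ _ ker_ev.symm).trans ((ev N).quotKerEquivOfSurjective ev_surj)
  have h := e.rank_eq
  rw [rank_fin_fun] at h
  exact h

/-! ### the resolution -/

theorem qq2_mem : io (qq N ^ 2) ∈ AN N := by
  refine io_mem fun i hi => ?_
  rw [Polynomial.derivative_pow, Polynomial.eval_mul, Polynomial.eval_mul]
  simp [qq_eval hi]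

theorem isIntegral_AN : Algebra.IsIntegral (AN N) R2 := by
  constructor
  intro f
  induction f using MvPolynomial.induction_on with
  | C a =>
    have h : (C a : R2) = algebraMap (AN N) R2 ⟨C a, (AN N).algebraMap_mem a⟩ := rfl
    rw [h]
    exact isIntegral_algebraMap
  | add p q hp hq => exact hp.add hq
  | mul_X p i hp =>
    refine hp.mul ?_
    fin_cases i
    · -- `x` is a root of `q(T) ^ 2 - q(x) ^ 2`
      show IsIntegral (AN N) (X 0 : R2)
      have hmon : (qq N ^ 2).Monic := by
        refine Polynomial.Monic.pow ?_ 2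
        exact Polynomial.monic_prod_of_monic _ _ fun i _ => Polynomial.monic_X_sub_C _
      rcases Nat.eq_zero_or_pos N with hN | hN
      · subst hN
        have h : (X 0 : R2) = algebraMap (AN 0) R2 ⟨X 0, fun i hi => absurd hi (Nat.not_lt_zero i)⟩ := rfl
        rw [h]
        exact isIntegral_algebraMap
      have hdeg : 0 < (qq N ^ 2).degree := by
        rw [← Polynomial.natDegree_pos_iff_degree_pos, Polynomial.natDegree_pow]
        have : (qq N).natDegree = N := by
          unfold qq
          rw [Polynomial.natDegree_prod_of_monic _ _ fun i _ => Polynomial.monic_X_sub_C _,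
            Finset.sum_congr rfl (fun i _ => Polynomial.natDegree_X_sub_C _)]
          simp
        rw [this]
        omega
      have hmon2 : ((qq N ^ 2).map (algebraMap ℂ (AN N))).Monic := hmon.map _
      refine ⟨(qq N ^ 2).map (algebraMap ℂ (AN N)) - Polynomial.C ⟨io (qq N ^ 2), qq2_mem⟩, ?_, ?_⟩
      · refine hmon2.sub_of_left ?_
        refine lt_of_le_of_lt Polynomial.degree_C_le ?_
        rwa [Polynomial.degree_map_eq_of_injective (algebraMap ℂ (AN N)).injective]
      · rw [Polynomial.eval₂_sub, Polynomial.eval₂_C, Polynomial.eval₂_map]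
        have h1 : (algebraMap (AN N) R2).comp (algebraMap ℂ (AN N)) = algebraMap ℂ R2 := rfl
        rw [h1]
        have h2 : algebraMap (AN N) R2 ⟨io (qq N ^ 2), qq2_mem⟩ = io (qq N ^ 2) := rfl
        rw [h2]
        exact sub_self _
    · show IsIntegral (AN N) (X 1 : R2)
      refine IsIntegral.of_pow (n := 2) (by norm_num) ?_
      have hm : (X 1 ^ 2 : R2) ∈ AN N := by
        have := y2_mem (N := N) 1
        rwa [mul_one, ← sq] at this
      have h : (X 1 ^ 2 : R2) = algebraMap (AN N) R2 ⟨X 1 ^ 2, hm⟩ := rfl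
      rw [h]
      exact isIntegral_algebraMap

theorem finite_AN : Module.Finite (AN N) R2 := by
  have := isIntegral_AN (N := N)
  have h1 : Algebra.FiniteType (AN N) R2 := Algebra.FiniteType.of_restrictScalars_finiteType ℂ (AN N) R2
  exact Algebra.IsIntegral.finite

theorem finiteType_AN : Algebra.FiniteType ℂ (AN N) := by
  have := finite_AN (N := N)
  constructor
  refine fg_of_fg_of_fg ℂ (AN N) R2 ?_ ?_ ?_
  · exact Algebra.FiniteType.out
  · exact Module.Finite.fg_top
  · exact Subtype.val_injective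

theorem proper_AN : AlgebraicGeometry.IsProper
    (AlgebraicGeometry.Spec.map (CommRingCat.ofHom ((AN N).val : AN N →+* R2))) := by
  have : AlgebraicGeometry.IsFinite
      (AlgebraicGeometry.Spec.map (CommRingCat.ofHom ((AN N).val : AN N →+* R2))) := by
    rw [AlgebraicGeometry.IsFinite.SpecMap_iff]
    exact finite_AN
  infer_instance

theorem resolution_AN : IsSymplecticResolution (PA N) PR (AN N).val where
  domain := inferInstance
  smooth := {}
  symplectic := PR_symplectic
  proper := proper_AN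
  injective := Subtype.val_injective
  birational := by
    refine ⟨⟨X 1 * (X 1 * 1), y2_mem 1⟩, ?_, fun r => ⟨⟨X 1 * (X 1 * r), y2_mem r⟩, ?_⟩⟩
    · intro h
      have h1 : (X 1 * (X 1 * 1) : R2) = 0 := congrArg Subtype.val h
      rw [mul_one] at h1
      exact mul_ne_zero (X_ne_zero 1) (X_ne_zero 1) h1
    · show X 1 * (X 1 * r) = (X 1 * (X 1 * 1)) * r
      ring
  poisson a b := rfl

end Pool.Agent.H46.PN
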