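import Pool.Agent.H46.PN.Basic

set_option autoImplicit false

/-!
# Symplectic resolutions by the affine plane: the zeroth Poisson homology vanishes exactly for normal varieties
-/

open MvPolynomial
open Pool.Agent.TH212

namespace Pool.Agent.H46.PN

abbrev R2 : Type := MvPolynomial (Fin 2) ℂ

theorem dim_R2 : ringKrullDim R2 = 2 := by
  rw [MvPolynomial.ringKrullDim_of_isNoetherianRing, ringKrullDim_eq_zero_of_field]
  simp

variable {O : Type} [CommRing O] [Algebra ℂ O] {P : PoissonBracket O} {Q : PoissonBracket R2}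
  {ρ : O →ₐ[ℂ] R2}

/-- stable prime ideals are maximal -/
theorem maximal_of_stable (hint : (ρ : O →+* R2).IsIntegral) (hQ : Q.IsSymplectic) (p : Ideal R2)
    [hp : p.IsPrime] (hp0 : p ≠ ⊥) (hst : ∀ f : O, ∀ x ∈ p, Q.br (ρ f) x ∈ p) : p.IsMaximal := by
  by_contra hmax
  obtain ⟨h, hhp, hh⟩ := Ideal.IsPrime.exists_mem_prime_of_ne_bot hp hp0
  have hle : Ideal.span {h} ≤ p := (Ideal.span_singleton_le_iff_mem p).2 hhp
  have hhprime : (Ideal.span {h}).IsPrime := (Ideal.span_singleton_prime hh.ne_zero).2 hh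
  rcases hle.eq_or_lt with heq | hlt
  · -- the curve
    have h1 : ∀ r, Q.br h r ∈ p := curve p h heq.symm hint (fun f => hst f h hhp)
    have h2 : ∀ D : Derivation ℂ R2 R2, ∀ g ∈ p, D g ∈ p := by
      intro D g hg
      rw [← heq, Ideal.mem_span_singleton] at hg
      obtain ⟨b, rfl⟩ := hg
      rw [Derivation.leibniz, smul_eq_mul, smul_eq_mul]
      refine p.add_mem (p.mul_mem_right _ hhp) (p.mul_mem_left _ ?_)
      obtain ⟨n, a, f, hf⟩ := hQ D
      rw [hf]
      refine Ideal.sum_mem _ fun i _ => p.mul_mem_left _ ?_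
      rw [br_antisymm]
      exact p.neg_mem (h1 _)
    exact hp.ne_top (simple p (fun i g hg => h2 (pderiv i) g hg) hp0)
  · -- a chain of length three
    obtain ⟨m, hm, hpm⟩ := Ideal.exists_le_maximal p hp.ne_top
    have hpm' : p < m := lt_of_le_of_ne hpm (fun h => hmax (h ▸ hm))
    have hbot : (⊥ : Ideal R2) < Ideal.span {h} := by
      rw [bot_lt_iff_ne_bot, Ne, Ideal.span_singleton_eq_bot]
      exact hh.ne_zero
    have : (⊥ : Ideal R2).IsPrime := Ideal.isPrime_bot
    let s : LTSeries (PrimeSpectrum R2) :=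
      { length := 3
        toFun := ![⟨⊥, this⟩, ⟨Ideal.span {h}, hhprime⟩, ⟨p, hp⟩, ⟨m, hm.isPrime⟩]
        step := by
          intro i
          fin_cases i
          · exact hbot
          · exact hlt
          · exact hpm' }
    have h3 := Order.LTSeries.length_le_krullDim s
    have h4 : Order.krullDim (PrimeSpectrum R2) = 2 := dim_R2
    rw [h4] at h3
    have h5 : ((3 : ℕ) : WithBot ℕ∞) ≤ ((2 : ℕ) : WithBot ℕ∞) := h3
    norm_cast at h5

/-- one is not a sum of brackets on a non-normal variety -/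
theorem one_notMem (hint : (ρ : O →+* R2).IsIntegral) (hQ : Q.IsSymplectic)
    (hρ : ∀ a b, ρ (P.br a b) = Q.br (ρ a) (ρ b)) (hbir : ∃ s : O, s ≠ 0 ∧ ∀ r : R2, ∃ a : O, ρ a = ρ s * r)
    (hinj : Function.Injective ρ) (hsurj : ¬ Function.Surjective ρ) : (1 : O) ∉ P.brackets := by
  have hc : cond ρ ≠ ⊤ := fun h => hsurj (cond_eq_top.1 h)
  obtain ⟨⟨p, hpmin⟩⟩ := Ideal.nonempty_minimalPrimes hc
  have hp : p.IsPrime := hpmin.1.1
  have hcp : cond ρ ≤ p := hpmin.1.2
  obtain ⟨s, hs, hs'⟩ := hbir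
  have hsc : ρ s ∈ cond ρ := hs'
  have hs0 : ρ s ≠ 0 := by
    rwa [Ne, map_eq_zero_iff _ hinj]
  have hp0 : p ≠ ⊥ := by
    intro h
    rw [h] at hcp
    exact hs0 (by simpa using hcp hsc)
  have hst : ∀ f : O, ∀ x ∈ p, Q.br (ρ f) x ∈ p := fun f =>
    minimal_stable (der Q (ρ f)) (cond ρ) p hpmin (cond_stable (P := P) hρ f)
  have hmax := maximal_of_stable hint hQ p hp0 hst
  obtain ⟨x, hx⟩ := MvPolynomial.isMaximal_iff_eq_vanishingIdeal_singleton.1 hmax
  have hval : ∀ r : R2, r - C (eval x r) ∈ p := by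
    intro r
    rw [hx, MvPolynomial.mem_vanishingIdeal_singleton_iff]
    simp
  intro hone
  have h1 : ∀ z ∈ P.brackets, ρ z ∈ p := by
    intro z hz
    unfold PoissonBracket.brackets at hz
    induction hz using Submodule.span_induction with
    | mem z hz =>
      obtain ⟨a, b, rfl⟩ := hz
      rw [hρ]
      have h2 : Q.br (ρ a) (ρ b) = der Q (ρ a) (ρ b - C (eval x (ρ b))) := by
        rw [map_sub, der_apply, ← MvPolynomial.algebraMap_eq, Derivation.map_algebraMap, sub_zero]
      rw [h2]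
      exact hst a _ (hval _)
    | zero => rw [map_zero]; exact p.zero_mem
    | add a b _ _ ha hb => rw [map_add]; exact p.add_mem ha hb
    | smul c a _ ha =>
      rw [map_smul, MvPolynomial.smul_eq_C_mul]
      exact p.mul_mem_left _ ha
  have h2 := h1 1 hone
  rw [map_one] at h2
  exact hp.ne_top ((Ideal.eq_top_iff_one p).2 h2)

/-- the zeroth Poisson homology of a non-normal variety does not vanish -/
theorem brackets_ne_top (hint : (ρ : O →+* R2).IsIntegral) (hQ : Q.IsSymplectic)
    (hρ : ∀ a b, ρ (P.br a b) = Q.br (ρ a) (ρ b)) (hbir : ∃ s : O, s ≠ 0 ∧ ∀ r : R2, ∃ a : O, ρ a = ρ s * r)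
    (hinj : Function.Injective ρ) (hsurj : ¬ Function.Surjective ρ) : P.brackets ≠ ⊤ := fun h =>
  one_notMem hint hQ hρ hbir hinj hsurj (by rw [h]; trivial)

/-- a symplectic bracket on the polynomials in two variables: everything is a sum of brackets -/
theorem plane_brackets (Q : PoissonBracket R2) (hQ : Q.IsSymplectic) (r : R2) :
    ∃ a b : R2, r = Q.br a b := by
  classical
  -- the bracket is `u` times the standard bracket
  set u : R2 := Q.br (X 0) (X 1) with hu
  have hD : ∀ D : Derivation ℂ R2 R2, ∀ g, D g = pderiv 0 g * D (X 0) + pderiv 1 g * D (X 1) := by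
    intro D g
    have h1 : D = D (X 0) • pderiv 0 + D (X 1) • pderiv 1 := by
      apply MvPolynomial.derivation_ext
      intro k
      rw [Derivation.add_apply, Derivation.smul_apply, Derivation.smul_apply, pderiv_X, pderiv_X]
      fin_cases k <;> simp
    have h2 := Derivation.congr_fun h1 g
    rw [h2, Derivation.add_apply, Derivation.smul_apply, Derivation.smul_apply, smul_eq_mul, smul_eq_mul]
    ring
  have hbr : ∀ f g, Q.br f g = u * (pderiv 0 f * pderiv 1 g - pderiv 1 f * pderiv 0 g) := by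
    intro f g
    have h1 := hD (der Q f) g
    simp only [der_apply] at h1
    have h2 : ∀ v : R2, Q.br f v = - Q.br v f := fun v => br_antisymm Q f v
    have h3 : Q.br (X 0) f = pderiv 1 f * u := by
      have := hD (der Q (X 0)) f
      simp only [der_apply, Q.br_self] at this
      rw [this]
      ring
    have h4 : Q.br (X 1) f = -(pderiv 0 f * u) := by
      have := hD (der Q (X 1)) f
      simp only [der_apply, Q.br_self] at this
      rw [this, br_antisymm Q (X 1) (X 0), ← hu]
      ring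
    rw [h1, h2 (X 0), h2 (X 1), h3, h4]
    ring
  -- `u` is a unit
  have hunit : IsUnit u := by
    obtain ⟨n, a, f, hf⟩ := hQ (pderiv 0)
    have h1 := hf (X 0)
    rw [pderiv_X_self] at h1
    have h2 : u ∣ 1 := by
      rw [h1]
      refine Finset.dvd_sum fun i _ => ?_
      rw [hbr]
      exact Dvd.dvd.mul_left (Dvd.intro _ rfl) _
    exact isUnit_of_dvd_one h2
  obtain ⟨c, hc⟩ := MvPolynomial.isUnit_iff_eq_C_of_isReduced.1 hunit
  obtain ⟨hcu, hc⟩ := hc
  have hc0 : c ≠ 0 := hcu.ne_zero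
  -- an antiderivative
  obtain ⟨b, hb⟩ : ∃ b : R2, pderiv 1 b = r := by
    induction r using MvPolynomial.induction_on' with
    | monomial m z =>
      refine ⟨monomial (m + Finsupp.single 1 1) (z / (m 1 + 1)), ?_⟩
      rw [pderiv_monomial]
      have h0 : ((m 1 : ℂ) + 1) ≠ 0 := Nat.cast_add_one_ne_zero _
      simp [div_mul_cancel₀ _ h0]
    | add p q hp hq =>
      obtain ⟨a, rfl⟩ := hp
      obtain ⟨b, rfl⟩ := hq
      exact ⟨a + b, map_add _ _ _⟩
  refine ⟨C c⁻¹ * X 0, b, ?_⟩
  rw [hbr, pderiv_C_mul, pderiv_C_mul, pderiv_X_self, pderiv_X_of_ne (show (0 : Fin 2) ≠ 1 by decide),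
    hb, hc]
  have : (C c * C c⁻¹ : R2) = 1 := by rw [← C_mul, mul_inv_cancel₀ hc0, C_1]
  linear_combination (-r) * this

end Pool.Agent.H46.PN
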