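import Pool.Agent.H46.PN.Main
import Pool.Graph.R_pool_sql_team_seeded_1acbe0a2.Y178.HP.Top

set_option autoImplicit false

/-!
# Symplectic resolutions by the affine plane: equivalent conditions
-/

open MvPolynomial
open Pool.Agent.TH212 Pool.Agent.Y178.HP

namespace Pool.Agent.H46.PN

variable {O : Type} [CommRing O] [Algebra ℂ O] {P : PoissonBracket O} {Q : PoissonBracket R2}
  {ρ : O →ₐ[ℂ] R2}

theorem integral_of_proper (h : AlgebraicGeometry.IsProper
    (AlgebraicGeometry.Spec.map (CommRingCat.ofHom (ρ : O →+* R2)))) : (ρ : O →+* R2).IsIntegral := by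
  have h1 : AlgebraicGeometry.IsIntegralHom
      (AlgebraicGeometry.Spec.map (CommRingCat.ofHom (ρ : O →+* R2))) := by
    rw [AlgebraicGeometry.IsIntegralHom.iff_universallyClosed_and_isAffineHom]
    exact ⟨inferInstance, inferInstance⟩
  rw [AlgebraicGeometry.IsIntegralHom.SpecMap_iff] at h1
  exact h1

theorem subsingleton_iff (h : IsSymplecticResolution P Q ρ) :
    Subsingleton P.HP0 ↔ Function.Surjective ρ := by
  constructor
  · intro hs
    by_contra hsurj
    have h1 := brackets_ne_top (integral_of_proper h.proper) h.symplectic h.poisson h.birational h.injective hsurj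
    exact h1 (Submodule.Quotient.subsingleton_iff.1 hs)
  · intro hsurj
    rw [Submodule.Quotient.subsingleton_iff, eq_top_iff]
    intro z _
    obtain ⟨a, b, hab⟩ := plane_brackets Q h.symplectic (ρ z)
    obtain ⟨a', rfl⟩ := hsurj a
    obtain ⟨b', rfl⟩ := hsurj b
    rw [← h.poisson] at hab
    rw [h.injective hab]
    exact Submodule.subset_span ⟨_, _, rfl⟩

theorem surjective_iff (h : IsSymplecticResolution P Q ρ) :
    Function.Surjective ρ ↔ IsIntegrallyClosed O := by
  have hdom : IsDomain O := h.injective.isDomain (ρ : O →+* R2)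
  constructor
  · intro hsurj
    exact IsIntegrallyClosed.of_equiv (RingEquiv.ofBijective (ρ : O →+* R2) ⟨h.injective, hsurj⟩).symm
  · intro hcl r
    obtain ⟨s, hs, hs'⟩ := h.birational
    obtain ⟨a, ha⟩ := hs' r
    have hs0 : ρ s ≠ 0 := by rwa [Ne, map_eq_zero_iff _ h.injective]
    -- the fraction `a / s`
    let K := FractionRing O
    have hsK : algebraMap O K s ≠ 0 := by
      rwa [Ne, map_eq_zero_iff _ (IsFractionRing.injective O K)]
    have hint : IsIntegral O (algebraMap O K a / algebraMap O K s) := by
      obtain ⟨F, hF, hF0⟩ := integral_of_proper h.proper r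
      refine ⟨F, hF, ?_⟩
      -- clear denominators with the homogenisation
      have key : ∀ G : Polynomial O, G.natDegree ≤ F.natDegree →
          ∃ b : O, ρ b = ρ s ^ F.natDegree * G.eval₂ (ρ : O →+* R2) r ∧
            algebraMap O K b = algebraMap O K s ^ F.natDegree *
              G.eval₂ (algebraMap O K) (algebraMap O K a / algebraMap O K s) := by
        intro G hG
        refine ⟨∑ i ∈ Finset.range (F.natDegree + 1), G.coeff i * a ^ i * s ^ (F.natDegree - i), ?_, ?_⟩
        · rw [Polynomial.eval₂_eq_sum_range' _ (Nat.lt_succ_of_le hG), Finset.mul_sum, map_sum]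
          refine Finset.sum_congr rfl fun i hi => ?_
          have hi' : i ≤ F.natDegree := Nat.lt_succ_iff.1 (Finset.mem_range.1 hi)
          rw [map_mul, map_mul, map_pow, map_pow, ha, mul_pow, RingHom.coe_coe]
          have e : ρ s ^ F.natDegree = ρ s ^ i * ρ s ^ (F.natDegree - i) := by
            rw [← pow_add, Nat.add_sub_cancel' hi']
          rw [e]
          ring
        · rw [Polynomial.eval₂_eq_sum_range' _ (Nat.lt_succ_of_le hG), Finset.mul_sum, map_sum]
          refine Finset.sum_congr rfl fun i hi => ?_
          have hi' : i ≤ F.natDegree := Nat.lt_succ_iff.1 (Finset.mem_range.1 hi)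
          rw [map_mul, map_mul, map_pow, map_pow, div_pow]
          have e : algebraMap O K s ^ F.natDegree =
              algebraMap O K s ^ i * algebraMap O K s ^ (F.natDegree - i) := by
            rw [← pow_add, Nat.add_sub_cancel' hi']
          have hsi : algebraMap O K s ^ i ≠ 0 := pow_ne_zero _ hsK
          have e2 : algebraMap O K s ^ i * (algebraMap O K a ^ i / algebraMap O K s ^ i) =
              algebraMap O K a ^ i := mul_div_cancel₀ _ hsi
          rw [e]
          linear_combination (-(algebraMap O K (G.coeff i) * algebraMap O K s ^ (F.natDegree - i))) * e2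
      obtain ⟨b, hb1, hb2⟩ := key F le_rfl
      rw [hF0, mul_zero] at hb1
      have hb0 : b = 0 := (map_eq_zero_iff _ h.injective).1 hb1
      rw [hb0, map_zero] at hb2
      exact (mul_eq_zero.1 hb2.symm).resolve_left (pow_ne_zero _ hsK)
    obtain ⟨b, hb⟩ := IsIntegrallyClosed.isIntegral_iff.1 hint
    refine ⟨b, ?_⟩
    rw [eq_div_iff hsK, ← map_mul] at hb
    have h1 := IsFractionRing.injective O K hb
    rw [← h1, map_mul, mul_comm] at ha
    exact mul_left_cancel₀ hs0 ha

/-- the ring is finitely generated -/
theorem finiteType_of (h : IsSymplecticResolution P Q ρ) : Algebra.FiniteType ℂ O := by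
  let _ : Algebra O R2 := (ρ : O →+* R2).toAlgebra
  have hst : IsScalarTower ℂ O R2 := IsScalarTower.of_algebraMap_eq fun c => (ρ.commutes c).symm
  have hint : Algebra.IsIntegral O R2 := ⟨integral_of_proper h.proper⟩
  have h1 : Algebra.FiniteType O R2 := Algebra.FiniteType.of_restrictScalars_finiteType ℂ O R2
  have h2 : Module.Finite O R2 := Algebra.IsIntegral.finite
  constructor
  refine fg_of_fg_of_fg ℂ O R2 ?_ ?_ ?_
  · exact Algebra.FiniteType.out
  · exact Module.Finite.fg_top
  · exact h.injective

theorem rank_iff :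
    Module.rank ℂ P.HP0 = Module.rank ℂ (cohomology 2 (Points R2)) ↔ Subsingleton P.HP0 := by
  have h1 : Subsingleton (cohomology 2 (Points R2)) :=
    ModuleCat.subsingleton_of_isZero (isZero_cohomology _ (by norm_num))
  rw [rank_subsingleton' ℂ (cohomology 2 (Points R2)), rank_zero_iff]

end Pool.Agent.H46.PN
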